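import Mathlib
import Pool.Agent.H.MP_05142a_co.Basic

set_option autoImplicit false

namespace Pool.Agent.Results.MP_05142a_co.Rational

open Pool.Agent.H.MP_05142a_co

lemma main (P : ℕ → ℕ → Prop)
    (hP : ∀ e : ℝ, Irrational e → ∃ lo < e, ∃ hi > e, ∀ k q k' q' : ℕ, 0 < k → 0 < q → 0 < k' → 0 < q' →
      lo < (q : ℝ) / k → (q : ℝ) / k < q' / k' → (q' : ℝ) / k' < hi → P k q → P k' q') (x : ℝ)
    (hx : IsGLB {x : ℝ | ∃ l : ℚ, x = l ∧ ∀ k q : ℕ, 0 < k → 0 < q → l ≤ (k : ℚ) / q → P k q} x) :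
    ∃ r : ℚ, x = r := by
  by_contra hr
  have hi : Irrational x := fun ⟨r, h⟩ => hr ⟨r, h.symm⟩
  have big : ∀ k q : ℕ, 0 < k → 0 < q → x < (k : ℝ) / q → P k q := by
    intro k q hk hq h
    obtain ⟨_, ⟨l, rfl, a⟩, -, b⟩ := hx.exists_between h
    exact a k q hk hq ((Rat.cast_le (K := ℝ)).1 (by simpa using b.le))
  have x0 : 0 < x := by
    by_contra c
    obtain ⟨l, hl⟩ := exists_rat_lt x
    refine absurd (hx.1 ⟨l, rfl, fun k q hk hq _ => big k q hk hq ?_⟩) (not_le.2 hl)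
    exact (not_lt.1 c).trans_lt (by positivity)
  obtain ⟨lo, h1, up, h2, h3⟩ := hP _ hi.inv
  have xi : 0 < x⁻¹ := inv_pos.2 x0
  have u0 : 0 < up := xi.trans h2
  obtain ⟨l, l1, l2⟩ := exists_rat_btwn (show up⁻¹ < x from by rwa [inv_lt_comm₀ u0 x0])
  refine absurd (hx.1 ⟨l, rfl, fun k' q' hk' hq' h => ?_⟩) (not_le.2 l2)
  have k1 : (0 : ℝ) < k' := by exact_mod_cast hk'
  have q1 : (0 : ℝ) < q' := by exact_mod_cast hq'
  rcases lt_trichotomy x ((k' : ℝ) / q') with c | c | c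
  · exact big _ _ hk' hq' c
  · exact absurd ⟨(k' : ℚ) / q', by simpa using c⟩ hr
  obtain ⟨r, r1, r2⟩ := exists_rat_btwn (max_lt h1 xi)
  have r0 : 0 < r := by exact_mod_cast (le_max_right _ _).trans_lt r1
  have e : ((r.num.toNat : ℕ) : ℝ) / (r.den : ℕ) = r := by
    have : ((r.num.toNat : ℕ) : ℝ) = r.num := by exact_mod_cast Int.toNat_of_nonneg (Rat.num_pos.2 r0).le
    rw [this, Rat.cast_def]
  have n0 : 0 < r.num.toNat := by have := Rat.num_pos.2 r0; omega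
  have c' : x⁻¹ < (q' : ℝ) / k' := by rw [← inv_div]; exact inv_strictAnti₀ (by positivity) c
  refine h3 r.den r.num.toNat k' q' r.pos n0 hk' hq' (e ▸ (le_max_left _ _).trans_lt r1) (e ▸ r2.trans c') ?_
    (big _ _ r.pos n0 ?_)
  · have : (l : ℝ) ≤ k' / q' := by simpa using (Rat.cast_le (K := ℝ)).2 h
    rw [← inv_div, inv_lt_comm₀ (by positivity) u0]
    linarith
  · rw [← inv_div, e, lt_inv_comm₀ x0 (by exact_mod_cast r0)]
    exact r2

theorem result (V : Type) [Fintype V] (G : SimpleGraph V) (x : ℝ) :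
    (IsGLB {x : ℝ | ∃ l : ℚ, x = l ∧ ∀ k q : ℕ, 0 < k → 0 < q → l ≤ (k : ℚ) / q → Mixing G k q} x →
      ∃ r : ℚ, x = r) ∧
    (IsGLB {x : ℝ | ∃ l : ℚ, x = l ∧ ∀ k q : ℕ, 0 < k → 0 < q → l ≤ (k : ℚ) / q →
      (∃ f, IsCol G k q f) ∧ Mixing G k q} x → ∃ r : ℚ, x = r) := by
  refine ⟨main _ (fun e he => ?_) x, main _ (fun e he => ?_) x⟩
  · obtain ⟨lo, h1, up, h2, h3⟩ := transfer G he
    exact ⟨lo, h1, up, h2, fun k q k' q' a b c d e f g => (h3 k q k' q' a b c d e f g).1⟩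
  · obtain ⟨lo, h1, up, h2, h3⟩ := transfer G he
    exact ⟨lo, h1, up, h2, fun k q k' q' a b c d e f g h =>
      ⟨(h3 k q k' q' a b c d e f g).2 h.1, (h3 k q k' q' a b c d e f g).1 h.2⟩⟩

end Pool.Agent.Results.MP_05142a_co.Rational
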